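import Pool.Agent.H20.ER3.Lib

/-!
# MP_816b90_co: Operation C, row AC
-/

set_option autoImplicit false
set_option linter.unusedVariables false
set_option linter.unusedSectionVars false

namespace Pool.Agent.H65.ER3

open Pool.Agent.H48.ER Pool.Agent.H52.ER2 Pool.Agent.H66.ER2 Pool.Agent.H20.ER3

variable {V : Type} {G : SimpleGraph V}

theorem cn_single (v : V) : Cn G {v} := by
  intro T hT hne _
  refine Set.Subset.antisymm hT ?_
  obtain ⟨u, hu⟩ := hne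
  have := hT hu
  rw [Set.mem_singleton_iff] at this
  rw [Set.singleton_subset_iff, ← this]
  exact hu

theorem cn_insert {X : Set V} {u z : V} (hX : Cn G X) (hu : u ∈ X) (ha : G.Adj u z) :
    Cn G (insert z X) := by
  intro T hT hne hcl
  refine Set.Subset.antisymm hT ?_
  have key : (T ∩ X).Nonempty → insert z X ⊆ T := by
    intro hn
    have e : T ∩ X = X := by
      refine hX _ Set.inter_subset_right hn ?_
      intro a h1 b hb hab
      exact ⟨hcl a h1.1 b (Set.mem_insert_of_mem _ hb) hab, hb⟩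
    have hXT : X ⊆ T := by rw [← e]; exact Set.inter_subset_left
    intro w hw
    rcases Set.mem_insert_iff.1 hw with h | h
    · rw [h]
      exact hcl u (hXT hu) z (Set.mem_insert _ _) ha
    · exact hXT h
  by_cases hn : (T ∩ X).Nonempty
  · exact key hn
  · exfalso
    obtain ⟨t, ht⟩ := hne
    rcases Set.mem_insert_iff.1 (hT ht) with h | h
    · subst h
      exact hn ⟨u, hcl t ht u (Set.mem_insert_of_mem _ hu) ha.symm, hu⟩
    · exact hn ⟨t, ht, h⟩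

/-- a connected set with another element than `x` has an element different from `x` whose removal
leaves it connected -/
theorem exists_noncut [Finite V] {D : Set V} (hD : Cn G D) {x : V} (hx : x ∈ D) (hne : D ≠ {x}) :
    ∃ v ∈ D, v ≠ x ∧ Cn G (D \ {v}) := by
  classical
  obtain ⟨X, ⟨hXD, hxX, hXc, hXn⟩, hmax⟩ := Set.exists_max_image
    {X : Set V | X ⊆ D ∧ x ∈ X ∧ Cn G X ∧ X ≠ D} (fun X => X.ncard) (Set.toFinite _)
    ⟨{x}, Set.singleton_subset_iff.2 hx, Set.mem_singleton _, cn_single x, fun e => hne e.symm⟩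
  have hcl : ¬ ∀ u ∈ X, ∀ w ∈ D, G.Adj u w → w ∈ X := fun h =>
    hXn (hD X hXD ⟨x, hxX⟩ h)
  push Not at hcl
  obtain ⟨u, hu, z, hz, huz, hzX⟩ := hcl
  have hc := cn_insert hXc hu huz
  have he : insert z X = D := by
    by_contra hne'
    have h1 := hmax (insert z X) ⟨Set.insert_subset hz hXD, Set.mem_insert_of_mem _ hxX, hc, hne'⟩
    have h2 : (insert z X).ncard = X.ncard + 1 := Set.ncard_insert_of_notMem hzX
    simp only [h2] at h1
    omega
  refine ⟨z, hz, fun e => hzX (e ▸ hxX), ?_⟩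
  rw [← he, Set.insert_sdiff_self_of_notMem hzX]
  exact hXc

/-- the main case: `u 2` sees `v` only, `u 3` and `u 5` see `w` only -/
theorem ac_core {R F : Set V} {N : ℕ} {u : ℕ → V} {v w : V} (hCON : T_CON) (hG : NOH G)
    (hE : EvS G R) (hFR : F ⊆ R) (hC : Cn G F) (hN : 7 ≤ N) (hv : v ∈ F) (hw : w ∈ F) (hvw : v ≠ w)
    (hu : ∀ i, 2 ≤ i → i + 2 ≤ N → u i ∉ R)
    (huu : ∀ i j, 2 ≤ i → i < j → j + 2 ≤ N → u i ≠ u j ∧ (G.Adj (u i) (u j) ↔ i + 1 ≠ j))
    (h2 : ∀ z ∈ F, G.Adj (u 2) z ↔ z = v) (h3 : ∀ z ∈ F, G.Adj (u 3) z ↔ z = w)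
    (h5 : ∀ z ∈ F, G.Adj (u 5) z ↔ z = w) : False := by
  obtain ⟨n, Q, hQ, hQF⟩ := hCON V G F v w hC hv hw
  have hn : 1 ≤ n := by
    rcases Nat.eq_zero_or_pos n with h | h
    · subst h
      exact absurd hQ.eq_of_zero.1 hvw
    · exact h
  have m2 : u 2 ∉ Q := fun h => hu 2 (by omega) (by omega) (hFR (hQF h))
  have m3 : u 3 ∉ Q := fun h => hu 3 (by omega) (by omega) (hFR (hQF h))
  have m5 : u 5 ∉ Q := fun h => hu 5 (by omega) (by omega) (hFR (hQF h))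
  obtain ⟨d23, a23⟩ := huu 2 3 (by omega) (by omega) (by omega)
  obtain ⟨d25, a25⟩ := huu 2 5 (by omega) (by omega) (by omega)
  have p2 : IP G (n + 1) (u 2) w (insert (u 2) Q) := hQ.cons m2 fun z hz => h2 z (hQF hz)
  have m3' : u 3 ∉ insert (u 2) Q := by
    intro h
    rcases Set.mem_insert_iff.1 h with h | h
    · exact d23 h.symm
    · exact m3 h
  have p3 : IP G (n + 1 + 1) (u 2) (u 3) (insert (u 3) (insert (u 2) Q)) := by
    refine p2.snoc m3' ?_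
    intro z hz
    rcases Set.mem_insert_iff.1 hz with h | h
    · subst h
      constructor
      · intro e
        exact absurd rfl (a23.1 e.symm)
      · intro e
        exact absurd (hFR hw) (e ▸ hu 2 (by omega) (by omega))
    · exact h3 z (hQF h)
  have q1 := hE _ _ _ _ p3 (hu 2 (by omega) (by omega)) (hu 3 (by omega) (by omega)) (by omega) (by
    intro z hz
    rcases Set.mem_insert_iff.1 hz with h | h
    · exact Or.inr (Or.inl h)
    · rcases Set.mem_insert_iff.1 h with h | h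
      · exact Or.inl h
      · exact Or.inr (Or.inr (hFR (hQF h))))
  have m5' : u 5 ∉ insert (u 2) Q := by
    intro h
    rcases Set.mem_insert_iff.1 h with h | h
    · exact d25 h.symm
    · exact m5 h
  have q2 := hG (n + 1) (u 2) w (u 5) (insert (u 2) Q) p2 (by omega) m5'
    (a25.2 (by omega)).symm ((h5 w hw).2 rfl) (by
      intro z hz ha
      rcases Set.mem_insert_iff.1 hz with h | h
      · exact Or.inl h
      · exact Or.inr ((h5 z (hQF h)).1 ha))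
  rw [Nat.even_iff] at q1 q2
  omega

theorem prop1 {a b a' b' : Prop} (n1 : ¬ (a ∧ a')) (n2 : ¬ (b ∧ b')) (s1 : a ∨ b)
    (s2 : a' ∨ b') : (b' ↔ ¬ b) ∧ (a ↔ ¬ b) ∧ (a' ↔ ¬ b') := by tauto

theorem prop2 {v v' w w' : Prop} (t1 : v' ↔ ¬ v) (t2 : w' ↔ ¬ w)
    (t3 : (w → ¬ v) ∧ (w' → ¬ v')) : (w ↔ ¬ v) ∧ (w' ↔ ¬ v') := by tauto

theorem pf_AC (hCON : T_CON) : U_AC := by
  classical
  intro V _ G R F N u hG hE hFR hC hN hu huu hNC
  obtain ⟨F', ⟨hF'F, hF'C, hF'S⟩, hmin⟩ := Set.exists_min_image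
    {F' : Set V | F' ⊆ F ∧ Cn G F' ∧ ∀ i, 2 ≤ i → i + 2 ≤ N → ∃ f ∈ F', G.Adj (u i) f}
    (fun X => X.ncard) (Set.toFinite _) ⟨F, subset_rfl, hC, fun i h1 h2 => (hu i h1 h2).2⟩
  obtain ⟨x, hx, _⟩ := hF'S 2 (by omega) (by omega)
  by_cases hone : F' = {x}
  · refine ⟨x, hF'F hx, ?_⟩
    intro i h1 h2
    obtain ⟨f, hf, ha⟩ := hF'S i h1 h2
    rw [hone, Set.mem_singleton_iff] at hf
    rw [← hf]; exact ha
  exfalso
  obtain ⟨v, hv, hvx, hvC⟩ := exists_noncut hF'C hx hone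
  have hone' : F' ≠ {v} := by
    intro e
    rw [e, Set.mem_singleton_iff] at hx
    exact hvx hx.symm
  obtain ⟨w, hw, hwv, hwC⟩ := exists_noncut hF'C hv hone'
  -- no two consecutive indices
  have nc : ∀ X : Set V, X ⊆ F' → Cn G X → X.ncard < F'.ncard → ∀ i, 2 ≤ i → i + 3 ≤ N →
      ¬ ((∃ f ∈ X, G.Adj (u i) f) ∧ ∃ f ∈ X, G.Adj (u (i + 1)) f) := by
    intro X hX hXc hlt
    rcases hNC X (hX.trans hF'F) hXc with h | h
    · have := hmin X ⟨hX.trans hF'F, hXc, h⟩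
      omega
    · exact h
  have card1 : ∀ z ∈ F', (F' \ {z}).ncard < F'.ncard := fun z hz =>
    Set.ncard_sdiff_singleton_lt_of_mem hz (Set.toFinite _)
  have hlt1 : ∀ z, ({z} : Set V).ncard < F'.ncard := by
    intro z
    rw [Set.ncard_singleton]
    have h1 : ({v, w} : Set V).ncard = 2 := Set.ncard_pair hwv.symm
    have h2 : ({v, w} : Set V).ncard ≤ F'.ncard := Set.ncard_le_ncard
      (Set.insert_subset hv (Set.singleton_subset_iff.2 hw)) (Set.toFinite _)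
    omega
  -- the alternation for a noncut vertex
  have alt : ∀ z ∈ F', Cn G (F' \ {z}) → ∀ i, 2 ≤ i → i + 3 ≤ N →
      ((G.Adj (u (i + 1)) z ↔ ¬ G.Adj (u i) z) ∧
      ((∃ f ∈ F' \ {z}, G.Adj (u i) f) ↔ ¬ G.Adj (u i) z) ∧
      ((∃ f ∈ F' \ {z}, G.Adj (u (i + 1)) f) ↔ ¬ G.Adj (u (i + 1)) z)) := by
    intro z hz hzC i h1 h2
    have n1 := nc _ Set.sdiff_subset hzC (card1 z hz) i h1 h2
    have n2 := nc {z} (Set.singleton_subset_iff.2 hz) (cn_single z) (hlt1 z) i h1 h2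
    have s : ∀ j, 2 ≤ j → j + 2 ≤ N → (∃ f ∈ F' \ {z}, G.Adj (u j) f) ∨ G.Adj (u j) z := by
      intro j k1 k2
      obtain ⟨f, hf, ha⟩ := hF'S j k1 k2
      by_cases e : f = z
      · subst e; exact Or.inr ha
      · exact Or.inl ⟨f, ⟨hf, e⟩, ha⟩
    have s1 := s i h1 (by omega)
    have s2 := s (i + 1) (by omega) (by omega)
    have n2' : ¬ (G.Adj (u i) z ∧ G.Adj (u (i + 1)) z) := fun h =>
      n2 ⟨⟨z, rfl, h.1⟩, ⟨z, rfl, h.2⟩⟩
    exact prop1 n1 n2' s1 s2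
  have av := alt v hv hvC
  have aw := alt w hw hwC
  -- the two classes are different
  have bw : ∀ i, 2 ≤ i → i + 3 ≤ N → (G.Adj (u i) w → ¬ G.Adj (u i) v) ∧
      (G.Adj (u (i + 1)) w → ¬ G.Adj (u (i + 1)) v) := by
    intro i h1 h2
    exact ⟨fun h => (av i h1 h2).2.1.1 ⟨w, ⟨hw, hwv⟩, h⟩,
      fun h => (av i h1 h2).2.2.1 ⟨w, ⟨hw, hwv⟩, h⟩⟩
  have ex : ∀ i, 2 ≤ i → i + 3 ≤ N → (G.Adj (u i) w ↔ ¬ G.Adj (u i) v) ∧
      (G.Adj (u (i + 1)) w ↔ ¬ G.Adj (u (i + 1)) v) := by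
    intro i h1 h2
    exact prop2 (av i h1 h2).1 (aw i h1 h2).1 (bw i h1 h2)
  have oth : ∀ z ∈ F', z ≠ v → z ≠ w → ∀ i, 2 ≤ i → i + 3 ≤ N → ¬ G.Adj (u i) z ∧
      ¬ G.Adj (u (i + 1)) z := by
    intro z hz h1 h2 i k1 k2
    have t := ex i k1 k2
    constructor
    · intro ha
      have c1 := (av i k1 k2).2.1.1 ⟨z, ⟨hz, h1⟩, ha⟩
      have c2 := (aw i k1 k2).2.1.1 ⟨z, ⟨hz, h2⟩, ha⟩
      exact c2 (t.1.2 c1)
    · intro ha
      have c1 := (av i k1 k2).2.2.1 ⟨z, ⟨hz, h1⟩, ha⟩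
      have c2 := (aw i k1 k2).2.2.1 ⟨z, ⟨hz, h2⟩, ha⟩
      exact c2 (t.2.2 c1)
  have e2 := ex 2 (by omega) (by omega)
  have e3 := ex 3 (by omega) (by omega)
  have e4 := ex 4 (by omega) (by omega)
  have t2 := (av 2 (by omega) (by omega)).1
  have t3 := (av 3 (by omega) (by omega)).1
  have t4 := (av 4 (by omega) (by omega)).1
  have fin : ∀ a b : V, a ∈ F' → b ∈ F' → a ≠ b → (∀ z ∈ F', z = a ∨ z = b ∨ (z ≠ v ∧ z ≠ w)) →
      G.Adj (u 2) a → ¬ G.Adj (u 2) b → G.Adj (u 3) b → ¬ G.Adj (u 3) a → G.Adj (u 5) b →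
      ¬ G.Adj (u 5) a → False := by
    intro a b ha hb hab hall k1 k2 k3 k4 k5 k6
    refine ac_core (v := a) (w := b) hCON hG hE (hF'F.trans hFR) hF'C hN ha hb hab
      (fun i h1 h2 => (hu i h1 h2).1) huu ?_ ?_ ?_
    · intro z hz
      rcases hall z hz with h | h | h
      · subst h; exact ⟨fun _ => rfl, fun _ => k1⟩
      · subst h; exact ⟨fun h => absurd h k2, fun e => absurd (e ▸ k1) k2⟩
      · exact ⟨fun e => absurd e (oth z hz h.1 h.2 2 (by omega) (by omega)).1,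
          fun e => absurd (e ▸ k1) (oth z hz h.1 h.2 2 (by omega) (by omega)).1⟩
    · intro z hz
      rcases hall z hz with h | h | h
      · subst h; exact ⟨fun h => absurd h k4, fun e => absurd e hab⟩
      · subst h; exact ⟨fun _ => rfl, fun _ => k3⟩
      · exact ⟨fun e => absurd e (oth z hz h.1 h.2 3 (by omega) (by omega)).1,
          fun e => absurd (e ▸ k3) (oth z hz h.1 h.2 3 (by omega) (by omega)).1⟩
    · intro z hz
      rcases hall z hz with h | h | h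
      · subst h; exact ⟨fun h => absurd h k6, fun e => absurd e hab⟩
      · subst h; exact ⟨fun _ => rfl, fun _ => k5⟩
      · exact ⟨fun e => absurd e (oth z hz h.1 h.2 4 (by omega) (by omega)).2,
          fun e => absurd (e ▸ k5) (oth z hz h.1 h.2 4 (by omega) (by omega)).2⟩
  have f2 : G.Adj (u 2) w ↔ ¬ G.Adj (u 2) v := e2.1
  have f3 : G.Adj (u 3) w ↔ ¬ G.Adj (u 3) v := e3.1
  have f5 : G.Adj (u 5) w ↔ ¬ G.Adj (u 5) v := e4.2
  have g3 : G.Adj (u 3) v ↔ ¬ G.Adj (u 2) v := t2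
  have g4 : G.Adj (u 4) v ↔ ¬ G.Adj (u 3) v := t3
  have g5 : G.Adj (u 5) v ↔ ¬ G.Adj (u 4) v := t4
  clear e2 e3 e4 t2 t3 t4
  by_cases hb : G.Adj (u 2) v
  · have x2 : ¬ G.Adj (u 2) w := fun h => f2.1 h hb
    have x3 : ¬ G.Adj (u 3) v := fun h => g3.1 h hb
    have x4 : G.Adj (u 4) v := g4.2 x3
    have x5 : ¬ G.Adj (u 5) v := fun h => g5.1 h x4
    refine fin v w hv hw hwv.symm ?_ hb x2 (f3.2 x3) x3 (f5.2 x5) x5
    intro z hz
    by_cases h1 : z = v
    · exact Or.inl h1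
    · by_cases h2 : z = w
      · exact Or.inr (Or.inl h2)
      · exact Or.inr (Or.inr ⟨h1, h2⟩)
  · have x3 : G.Adj (u 3) v := g3.2 hb
    have x4 : ¬ G.Adj (u 4) v := fun h => g4.1 h x3
    have x5 : G.Adj (u 5) v := g5.2 x4
    refine fin w v hw hv hwv ?_ (f2.2 hb) hb x3 (fun h => f3.1 h x3) x5 (fun h => f5.1 h x5)
    intro z hz
    by_cases h1 : z = v
    · exact Or.inr (Or.inl h1)
    · by_cases h2 : z = w
      · exact Or.inl h2
      · exact Or.inr (Or.inr ⟨h1, h2⟩)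

end Pool.Agent.H65.ER3
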