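import Pool.Agent.H20.ER3.Lib

/-!
# MP_816b90_co: Operation C, row C9
-/

set_option autoImplicit false
set_option linter.unusedVariables false
set_option linter.unusedSectionVars false

namespace Pool.Agent.H65.ER3

open Pool.Agent.H48.ER Pool.Agent.H52.ER2 Pool.Agent.H66.ER2 Pool.Agent.H20.ER3

variable {V : Type} {H : SimpleGraph V} {R : Set V}

/-- the interior of a path through `R` is a connected set which both ends see -/
theorem pint {n : ℕ} {x y : V ⊕ Set V} {X : Set (V ⊕ Set V)} (h : IP (MG H R) n x y X)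
    (hn : 2 ≤ n) (hx : ¬ InR R x) (hy : ¬ InR R y) (hi : ∀ w ∈ X, w = x ∨ w = y ∨ InR R w) :
    ∃ (c d : V) (F : Set V), x = Sum.inl c ∧ y = Sum.inl d ∧ Sees H R F c ∧ Sees H R F d ∧
      ∀ r ∈ F, r ∈ R ∧ Sum.inl r ∈ X := by
  classical
  obtain ⟨p, p0, pn, pi, pa, hX⟩ := h
  have hR : ∀ i, 0 < i → i < n → InR R (p i) := by
    intro i h1 h2
    rcases hi (p i) (by rw [hX]; exact ⟨i, by omega, rfl⟩) with e | e | e
    · have := pi i 0 (by omega) (by omega) (e.trans p0.symm); omega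
    · have := pi i n (by omega) (by omega) (e.trans pn.symm); omega
    · exact e
  obtain ⟨r1, hr1, er1⟩ := hR 1 (by omega) (by omega)
  obtain ⟨r2, hr2, er2⟩ := hR (n - 1) (by omega) (by omega)
  have hc : (MG H R).Adj (Sum.inl r1) x := by
    rw [← er1, ← p0, pa 1 0 (by omega) (by omega)]; right; rfl
  have hd : (MG H R).Adj (Sum.inl r2) y := by
    rw [← er2, ← pn, pa _ n (by omega) le_rfl]; left; omega
  obtain ⟨c, rfl, hc'⟩ := inR_adj hr1 hc
  obtain ⟨d, rfl, hd'⟩ := inR_adj hr2 hd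
  rw [InR.inl_iff] at hx hy
  have : Nonempty V := ⟨c⟩
  have hR' : ∀ i, 0 < i ∧ i < n → ∃ r, r ∈ R ∧ p i = Sum.inl r :=
    fun i hh => hR i hh.1 hh.2
  choose! q hq hpq using hR'
  have hip : IP H (n - 2) (q 1) (q (n - 1)) {r | ∃ i, i ≤ n - 2 ∧ q (i + 1) = r} := by
    refine ⟨fun i => q (i + 1), rfl, ?_, ?_, ?_, rfl⟩
    · show q (n - 2 + 1) = q (n - 1)
      congr 1; omega
    · intro i j h1 h2 e
      have e' : p (i + 1) = p (j + 1) := by
        rw [hpq (i + 1) ⟨by omega, by omega⟩, hpq (j + 1) ⟨by omega, by omega⟩]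
        exact congrArg Sum.inl e
      have := pi _ _ (by omega) (by omega) e'
      omega
    · intro i j h1 h2
      show H.Adj (q (i + 1)) (q (j + 1)) ↔ _
      rw [← mg_ll (R := R), ← hpq (i + 1) ⟨by omega, by omega⟩, ← hpq (j + 1) ⟨by omega, by omega⟩,
        pa _ _ (by omega) (by omega)]
      omega
  have hF : ∀ r ∈ {r | ∃ i, i ≤ n - 2 ∧ q (i + 1) = r}, r ∈ R := by
    rintro r ⟨i, h1, rfl⟩
    exact hq (i + 1) ⟨by omega, by omega⟩
  refine ⟨c, d, {r | ∃ i, i ≤ n - 2 ∧ q (i + 1) = r}, rfl, rfl,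
    ⟨hx, hF, ip_cn hip, r1, ⟨0, by omega, ?_⟩, hc'.symm⟩,
    ⟨hy, hF, ip_cn hip, r2, ⟨n - 2, by omega, ?_⟩, hd'.symm⟩, ?_⟩
  · have := hpq 1 ⟨by omega, by omega⟩
    rw [er1] at this
    exact (Sum.inl.inj this).symm
  · have := hpq (n - 1) ⟨by omega, by omega⟩
    rw [er2] at this
    rw [show n - 2 + 1 = n - 1 by omega]
    exact (Sum.inl.inj this).symm
  · rintro r ⟨i, h1, rfl⟩
    refine ⟨hq (i + 1) ⟨by omega, by omega⟩, ?_⟩
    rw [hX]
    exact ⟨i + 1, by omega, hpq (i + 1) ⟨by omega, by omega⟩⟩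

theorem pf_C9 (hPX : U_PX) (hPY : U_PY) (hPZ : U_PZ) (hPW : U_PW) (hGE : U_GE) : U_C9 := by
  intro V H R n g s t hEv hAs hPI hodd h0 hall
  obtain ⟨a1, a2, a3, a4, a5, a6, a7⟩ := hall 1 (by decide)
  obtain ⟨b1, b2, b3, b4, b5, b6, b7⟩ := hall 2 (by decide)
  have o0 := hodd 0
  have o1 := hodd 1
  have o2 := hodd 2
  -- the path through the corners
  have eX : ∀ w ∈ seg (g 1) 0 (s 1) ∪ seg (g 2) 0 (s 2), w = g 1 (s 1) ∨ w = g 2 (s 2) ∨
      InR R w := by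
    rintro w (⟨k, h1, h2, rfl⟩ | ⟨k, h1, h2, rfl⟩)
    · rcases Nat.lt_or_ge k (s 1) with h | h
      · exact Or.inr (Or.inr (a4 k h))
      · left; congr 1; omega
    · rcases Nat.lt_or_ge k (s 2) with h | h
      · exact Or.inr (Or.inr (b4 k h))
      · right; left; congr 1; omega
  have pX := hPX _ (MG H R) n g 1 2 (s 1) (s 2) hPI (by decide) (by omega) (by omega) (by omega)
  have q1 := hGE _ H R _ _ _ _ hEv pX (by omega) a5 b5 eX
  have pY := hPY _ (MG H R) n g 1 2 (t 1) (t 2) hPI (by decide) (by omega) (by omega) (by omega)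
  have q2 := hGE _ H R _ _ _ _ hEv pY (by omega) a6 b6 (by
    rintro w (⟨k, h1, h2, rfl⟩ | ⟨k, h1, h2, rfl⟩)
    · rcases Nat.lt_or_ge (t 1) k with h | h
      · exact Or.inr (Or.inr (a7 k h h2))
      · left; congr 1; omega
    · rcases Nat.lt_or_ge (t 2) k with h | h
      · exact Or.inr (Or.inr (b7 k h h2))
      · right; left; congr 1; omega)
  have pZ := hPZ _ (MG H R) n g 1 2 0 (s 1) (t 2) hPI (by decide) (by decide) (by decide)
    (by omega) (by omega) (by omega)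
  have q3 := hGE _ H R _ _ _ _ hEv pZ (by omega) a5 b6 (by
    rintro w ((⟨k, h1, h2, rfl⟩ | ⟨k, h1, h2, rfl⟩) | ⟨k, h1, h2, rfl⟩)
    · rcases Nat.lt_or_ge k (s 1) with h | h
      · exact Or.inr (Or.inr (a4 k h))
      · left; congr 1; omega
    · exact Or.inr (Or.inr (h0 k h2))
    · rcases Nat.lt_or_ge (t 2) k with h | h
      · exact Or.inr (Or.inr (b7 k h h2))
      · right; left; congr 1; omega)
  have pZ' := hPZ _ (MG H R) n g 2 1 0 (s 2) (t 1) hPI (by decide) (by decide) (by decide)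
    (by omega) (by omega) (by omega)
  have eZ' : ∀ w ∈ seg (g 2) 0 (s 2) ∪ seg (g 0) 0 (n 0) ∪ seg (g 1) (t 1) (n 1),
      w = g 2 (s 2) ∨ w = g 1 (t 1) ∨ InR R w := by
    rintro w ((⟨k, h1, h2, rfl⟩ | ⟨k, h1, h2, rfl⟩) | ⟨k, h1, h2, rfl⟩)
    · rcases Nat.lt_or_ge k (s 2) with h | h
      · exact Or.inr (Or.inr (b4 k h))
      · left; congr 1; omega
    · exact Or.inr (Or.inr (h0 k h2))
    · rcases Nat.lt_or_ge (t 1) k with h | h
      · exact Or.inr (Or.inr (a7 k h h2))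
      · right; left; congr 1; omega
  have q4 := hGE _ H R _ _ _ _ hEv pZ' (by omega) b5 a6 eZ'
  have ht : t 1 = s 1 + 1 := by
    by_contra hne
    have h2 : s 1 + 2 ≤ t 1 := by
      by_contra h
      have : t 1 = s 1 := by omega
      rw [Nat.even_iff] at q1 q2 q3 q4
      rw [Nat.odd_iff] at o0 o1 o2
      omega
    have pW := hPW _ (MG H R) n g 1 0 (s 1) (t 1) hPI (by decide) h2 (by omega)
    have q5 := hGE _ H R _ _ _ _ hEv pW (by omega) a5 a6 (by
      rintro w ((⟨k, h1, h2, rfl⟩ | ⟨k, h1, h2, rfl⟩) | ⟨k, h1, h2, rfl⟩)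
      · rcases Nat.lt_or_ge k (s 1) with h | h
        · exact Or.inr (Or.inr (a4 k h))
        · left; congr 1; omega
      · exact Or.inr (Or.inr (h0 k h2))
      · rcases Nat.lt_or_ge (t 1) k with h | h
        · exact Or.inr (Or.inr (a7 k h h2))
        · right; left; congr 1; omega)
    rw [Nat.even_iff] at q1 q2 q3 q4 q5
    rw [Nat.odd_iff] at o0 o1 o2
    omega
  obtain ⟨c2, c1, F1, e2, e1, S12, S11, m1⟩ := pint pX (by omega) a5 b5 eX
  obtain ⟨c1', c3, F2, e1', e3, S21, S23, m2⟩ := pint pZ' (by omega) b5 a6 eZ'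
  have hc : c1' = c1 := by
    rw [e1] at e1'; exact (Sum.inl.inj e1').symm
  subst hc
  have A := hPI.adj
  refine hAs c1' c2 c3 F1 F2 ?_ ?_ ?_ S11 S12 ?_ S23.1 S21 S23 ?_
  · rw [← mg_ll (R := R), ← e2, ← e3, A 1 1 _ _ (by omega) (by omega)]
    exact Or.inl ⟨rfl, Or.inl ht.symm⟩
  · rw [← mg_ll (R := R), ← e1, ← e2, A 2 1 _ _ (by omega) (by omega)]
    rintro (⟨h, _⟩ | ⟨_, ⟨h, _⟩ | ⟨h, _⟩⟩)
    · exact absurd h (by decide)
    · omega
    · omega
  · rw [← mg_ll (R := R), ← e1, ← e3, A 2 1 _ _ (by omega) (by omega)]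
    rintro (⟨h, _⟩ | ⟨_, ⟨h, _⟩ | ⟨h, _⟩⟩)
    · exact absurd h (by decide)
    · omega
    · omega
  · rintro ⟨_, _, _, f, hf, ha⟩
    obtain ⟨hfR, hfX⟩ := m1 f hf
    have ha' : (MG H R).Adj (g 1 (t 1)) (Sum.inl f) := by rw [e3]; exact ha
    rcases hfX with ⟨k, h1, h2, hk⟩ | ⟨k, h1, h2, hk⟩
    · rw [← hk, A 1 1 _ _ (by omega) (by omega)] at ha'
      rcases ha' with ⟨_, h | h⟩ | ⟨h, _⟩
      · omega
      · have : k = s 1 := by omega
        subst this
        exact a5 ⟨f, hfR, hk⟩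
      · exact h rfl
    · rw [← hk, A 1 2 _ _ (by omega) (by omega)] at ha'
      rcases ha' with ⟨h, _⟩ | ⟨_, ⟨h, _⟩ | ⟨h, _⟩⟩
      · exact absurd h (by decide)
      · omega
      · omega
  · rintro ⟨_, _, _, f, hf, ha⟩
    obtain ⟨hfR, hfX⟩ := m2 f hf
    have ha' : (MG H R).Adj (g 1 (s 1)) (Sum.inl f) := by rw [e2]; exact ha
    rcases hfX with (⟨k, h1, h2, hk⟩ | ⟨k, h1, h2, hk⟩) | ⟨k, h1, h2, hk⟩
    · rw [← hk, A 1 2 _ _ (by omega) (by omega)] at ha'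
      rcases ha' with ⟨h, _⟩ | ⟨_, ⟨h, _⟩ | ⟨h, _⟩⟩
      · exact absurd h (by decide)
      · omega
      · omega
    · rw [← hk, A 1 0 _ _ (by omega) (by omega)] at ha'
      rcases ha' with ⟨h, _⟩ | ⟨_, ⟨h, _⟩ | ⟨h, _⟩⟩
      · exact absurd h (by decide)
      · omega
      · omega
    · rw [← hk, A 1 1 _ _ (by omega) (by omega)] at ha'
      rcases ha' with ⟨_, h | h⟩ | ⟨h, _⟩
      · have : k = t 1 := by omega
        subst this
        exact a6 ⟨f, hfR, hk⟩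
      · omega
      · exact h rfl

end Pool.Agent.H65.ER3
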